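import Pool.Agent.W871.HI.Final
import Pool.Agent.W871.HI.CC
import Pool.Agent.W120.HI.Tup
import Pool.Agent.W120.HI.Bin
import Pool.Agent.W120.HI.Burn
import Pool.Agent.W42.HI.Fac
import Pool.Agent.W42.HI.Cyc
import Pool.Agent.W101.HI.X
import Pool.Agent.W903.HI.ParC
import Pool.Agent.W903.HI.ParA
import Pool.Agent.W903.HI.ParB

/-!
# MP_5f0aae_co: enumeration of homeomorphically irreducible graphs

A closed formula for the counting polynomial `h_p(x)` of the homeomorphically irreducible graphs
(no point of degree 2) with `p` points, for every `p`: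

`h_p(x) = sum over n ≤ p, over k and over the sequences m = (m_1, ..., m_k) of positive integers
with sum n, of 1/(k! m_1 ... m_k) * polya(m) * [z^(p-n)] exp (sum_{l=1}^p E_l(m; x, z))`,

where `polya(m)` is the product of Polya's formula for all graphs with `n` points and the `E_l` are
explicit elementary series. (The sum over `k` and `m` with weights `1/(k! m_1 ... m_k)` is the sum
over the cycle types of the permutations of `n` points as in Polya's formula; the term `n = p` is
Polya's formula for the number of all graphs with `p` points, the other terms correct for the points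
of degree two.)
-/

open Finset

namespace Pool.Agent.Results.MP_5f0aae_co.HomeoIrredFormula

noncomputable section

/-- A graph is homeomorphically irreducible if none of its points has degree `2`. -/
def HomeoIrreducible {V : Type*} (G : SimpleGraph V) : Prop :=
  ∀ v, (G.neighborSet v).ncard ≠ 2

/-- Isomorphism of homeomorphically irreducible graphs with point set `Fin p` and `q` lines. -/
def isoSetoid (p q : ℕ) :
    Setoid {G : SimpleGraph (Fin p) // HomeoIrreducible G ∧ G.edgeSet.ncard = q} where
  r G H := Nonempty (G.1 ≃g H.1)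
  iseqv := ⟨fun _ => ⟨SimpleGraph.Iso.refl⟩, fun ⟨e⟩ => ⟨e.symm⟩, fun ⟨e⟩ ⟨f⟩ => ⟨e.trans f⟩⟩

/-- The number `h_{pq}` of isomorphism classes of homeomorphically irreducible graphs with `p`
points and `q` lines. -/
def h (p q : ℕ) : ℕ := Nat.card (Quotient (isoSetoid p q))

/-- The sequences of `k` positive integers with sum `n` (ordered cycle types of permutations of `n`
points with `k` cycles). -/
def types (k n : ℕ) : Finset (Fin k → ℕ) :=
  (Fintype.piFinset fun _ => Icc 1 n).filter fun m => ∑ i, m i = n

/-- The product of Polya's formula for the enumeration of all graphs: the counting polynomial of the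
graphs which are invariant under a permutation with cycles of lengths `m 0, ..., m (k - 1)`. -/
def polya {k : ℕ} (m : Fin k → ℕ) : Polynomial ℚ :=
  (∏ i, ((1 + Polynomial.X ^ m i) ^ ((m i - 1) / 2) *
    (if Even (m i) then 1 + Polynomial.X ^ (m i / 2) else 1))) *
    ∏ i, ∏ j ∈ Ioi i, (1 + Polynomial.X ^ Nat.lcm (m i) (m j)) ^ Nat.gcd (m i) (m j)

/-- `F_l(m)`: the sum of the `m i` which divide `l`. -/
def F {k : ℕ} (m : Fin k → ℕ) (l : ℕ) : ℕ := ∑ i with m i ∣ l, m i

/-- `S_l(m)`: the sum of the `m i` which divide `2 * l` but not `l`. -/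
def S {k : ℕ} (m : Fin k → ℕ) (l : ℕ) : ℕ := ∑ i with (m i ∣ 2 * l ∧ ¬ m i ∣ l), m i

/-- The monomial `x ^ a * z ^ b` in the ring of power series in `z` over the polynomials in `x`. -/
def mono (a b : ℕ) : PowerSeries (Polynomial ℚ) :=
  PowerSeries.C (Polynomial.X ^ a) * PowerSeries.X ^ b

/-- The exponent `E_l(m; x, z)`. With `u = x ^ l * z ^ l` and with `e = 1` for even `l` and `e = 0`
for odd `l` it is
`u/2 - u^2/(4l) - log(1+u)/2 - (F_l x^l + e x^(l/2) - e x^l z^(l/2))^2 z^l / (2l (1+u))
  - ((S_l - F_l)/2 x^(2l) + floor((l-1)/2) x^l - e x^l / 2) z^l / l`. -/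
def E {k : ℕ} (m : Fin k → ℕ) (l : ℕ) : PowerSeries (Polynomial ℚ) :=
  (2⁻¹ : ℚ) • mono l l - ((4 * l : ℚ)⁻¹) • mono (2 * l) (2 * l)
    - (2⁻¹ : ℚ) • PowerSeries.logOf (1 + mono l l)
    - ((2 * l : ℚ)⁻¹) • ((PowerSeries.C ((F m l : Polynomial ℚ) * Polynomial.X ^ l
          + if Even l then Polynomial.X ^ (l / 2) else 0)
        - if Even l then mono l (l / 2) else 0) ^ 2 *
        PowerSeries.X ^ l * PowerSeries.invOfUnit (1 + mono l l) 1)
    - ((l : ℚ)⁻¹) • (PowerSeries.C ((((S m l : ℚ) - F m l) / 2) • Polynomial.X ^ (2 * l)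
        + (((l - 1) / 2 : ℕ) : Polynomial ℚ) * Polynomial.X ^ l
        - (2⁻¹ : ℚ) • if Even l then Polynomial.X ^ l else 0) * PowerSeries.X ^ l)

/-- The closed form of the counting polynomial `h_p(x)`. -/
def formula (p : ℕ) : Polynomial ℚ :=
  ∑ n ∈ range (p + 1), ∑ k ∈ range (n + 1), ∑ m ∈ types k n,
    (((k.factorial : ℚ)⁻¹) * ∏ i, (m i : ℚ)⁻¹) •
      (polya m * PowerSeries.coeff (p - n)
        ((PowerSeries.exp (Polynomial ℚ)).subst (∑ l ∈ Icc 1 p, E m l)))

lemma h_eq (p q : ℕ) : h p q = W871.HI.h p q := rfl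

lemma h_big (p q : ℕ) (hq : p.choose 2 < q) : h p q = 0 := by
  unfold h
  have : IsEmpty {G : SimpleGraph (Fin p) // HomeoIrreducible G ∧ G.edgeSet.ncard = q} := by
    constructor
    rintro ⟨G, _, hG⟩
    classical
    have h1 := G.card_edgeFinset_le_card_choose_two
    rw [Fintype.card_fin] at h1
    have h2 : G.edgeSet.ncard = G.edgeFinset.card := by
      rw [← SimpleGraph.coe_edgeFinset, Set.ncard_coe_finset]
    omega
  have h3 : IsEmpty (Quotient (isoSetoid p q)) := by
    constructor
    intro a
    induction a using Quotient.inductionOn with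
    | _ a => exact this.false a
  exact Nat.card_of_isEmpty

lemma cyc : W871.HI.S_cyc := W42.HI.cyc W120.HI.rec

lemma par : W871.HI.S_par := W903.HI.parC W903.HI.parA W903.HI.parB

lemma main : W871.HI.S_fin :=
  W871.HI.fin W120.HI.burn cyc par (W871.HI.split W120.HI.bin W42.HI.fac)
    (W871.HI.rel W120.HI.rem (W871.HI.c1 W101.HI.x0 W101.HI.x1 W101.HI.sym)
      (W871.HI.c11 W101.HI.x0 W101.HI.x1 W101.HI.sym)
      (W871.HI.c2 W101.HI.x0 W101.HI.x2 W101.HI.sym))
    (W871.HI.der W120.HI.rec W101.HI.sym) W871.HI.ode W101.HI.coef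

/-- The counting polynomial. -/
lemma poly (p : ℕ) :
    ∑ q ∈ range (p.choose 2 + 1), (h p q : Polynomial ℚ) * Polynomial.X ^ q = formula p :=
  main p

/-- For all `p` and `q`, the number `h_{pq}` of homeomorphically irreducible graphs with `p` points
and `q` lines is the coefficient of `x ^ q` in the explicit polynomial `formula p`. -/
theorem result : ∀ p q : ℕ, (h p q : ℚ) = (formula p).coeff q := by
  intro p q
  rw [← poly p, Polynomial.finsetSum_coeff]
  have h1 : ∀ b, ((h p b : Polynomial ℚ) * Polynomial.X ^ b).coeff q =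
      if q = b then (h p b : ℚ) else 0 := by
    intro b
    rw [← Polynomial.C_eq_natCast, Polynomial.coeff_C_mul_X_pow]
  simp only [h1]
  rw [Finset.sum_ite_eq]
  split_ifs with h2
  · rfl
  · rw [h_big p q (by simpa using h2)]
    simp

end

end Pool.Agent.Results.MP_5f0aae_co.HomeoIrredFormula
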